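import Pool.Agent.W290.LG.Stm2

/-!
# Project LG: from a representation to coefficients
-/

set_option autoImplicit false

namespace Pool.Agent.W419.LG

open Pool.Agent Pool.Agent.NPC Pool.Agent.H881R2.Mat Pool.Agent.W290.LG

section

variable {n m : ℕ} (v : Fin n → (Fin m → ℚ))

/-- basis in terms of coefficients -/
def Bas (B : Finset (Fin n)) : Prop :=
  (∀ f : Fin n → ℚ, ∑ i ∈ B, f i • v i = 0 → ∀ i ∈ B, f i = 0) ∧
  ∀ j, ∃ f : Fin n → ℚ, ∑ i ∈ B, f i • v i = v j

theorem bas_iff (B : Finset (Fin n)) : (LinearIndependent ℚ (fun i : B => v i) ∧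
    Submodule.span ℚ (v '' (B : Set (Fin n))) = Submodule.span ℚ (Set.range v)) ↔ Bas v B := by
  have h1 : LinearIndependent ℚ (fun i : B => v i) ↔ LinearIndepOn ℚ v (B : Set (Fin n)) :=
    Iff.rfl
  rw [h1, linearIndepOn_finset_iff]
  refine and_congr Iff.rfl ?_
  constructor
  · intro h j
    have : v j ∈ Submodule.span ℚ (v '' (B : Set (Fin n))) := by
      rw [h]; exact Submodule.subset_span ⟨j, rfl⟩
    exact (Submodule.mem_span_image_finset_iff_exists_fun' ℚ).1 this
  · intro h
    apply le_antisymm
    · exact Submodule.span_mono (Set.image_subset_range _ _)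
    · rw [Submodule.span_le]
      rintro _ ⟨j, rfl⟩
      exact (Submodule.mem_span_image_finset_iff_exists_fun' ℚ).2 (h j)

theorem exists_bas : ∃ B : Finset (Fin n), Bas v B := by
  classical
  obtain ⟨κ, a, ha, hs, hl⟩ := exists_linearIndependent' ℚ v
  haveI : Fintype κ := Fintype.ofInjective a ha
  refine ⟨Finset.univ.image a, (bas_iff v _).1 ?_⟩
  have e : ((Finset.univ.image a : Finset (Fin n)) : Set (Fin n)) = Set.range a := by
    simp
  refine ⟨?_, ?_⟩
  · have : LinearIndepOn ℚ v (Set.range a) := (linearIndepOn_range_iff ha v).2 hl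
    rw [← e] at this
    exact this
  · rw [e, ← hs, Set.range_comp]

end

theorem exch_iff (L : List (List ℕ)) (l : List ℕ) (j k : ℕ) : exch L l j k = true ↔
    ∃ l' ∈ L, j ∈ l' ∧ (∀ x ∈ l', x = j ∨ (x ∈ l ∧ x ≠ k)) ∧ ∀ x ∈ l, x = k ∨ x ∈ l' := by
  simp [exch]

theorem t_J : Pool.Agent.W290.LG.S_J := by
  classical
  rintro ⟨n, L⟩ hV ⟨m, v, hB⟩
  simp only at hV hB
  change L ≠ [] ∧ ∃ c : ℕ → ℕ → ℕ → ℚ, Coef L c
  have hB' : ∀ B : Finset (Fin n), Listed L B ↔ Bas v B := fun B => (hB B).trans (bas_iff v B)
  have hlt : ∀ l ∈ L, ∀ x ∈ l, x < n := fun l hl x hx => (hV l hl).2 x hx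
  have hnd : ∀ l ∈ L, l.Nodup := fun l hl => (hV l hl).1.imp (fun h => ne_of_lt h)
  have hfl : ∀ x ∈ L.flatten, x < n := by
    intro x hx
    obtain ⟨l, hl, hxl⟩ := List.mem_flatten.1 hx
    exact hlt l hl x hxl
  let S : List ℕ → Finset (Fin n) := fun l => Finset.univ.filter (fun i => (i : ℕ) ∈ l)
  have memS : ∀ l (i : Fin n), i ∈ S l ↔ (i : ℕ) ∈ l := fun l i => by simp [S]
  have hS : ∀ l ∈ L, Bas v (S l) := fun l hl => (hB' _).1 ⟨l, hl, fun i => memS l i⟩
  have hc : ∀ l : List ℕ, ∃ a : Fin n → Fin n → ℚ, l ∈ L →
      (∀ j i, i ∉ S l → a j i = 0) ∧ ∀ j, ∑ i, a j i • v i = v j := by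
    intro l
    by_cases hl : l ∈ L
    · choose f hf using (hS l hl).2
      refine ⟨fun j i => if i ∈ S l then f j i else 0, fun _ => ⟨fun j i hi => if_neg hi,
        fun j => ?_⟩⟩
      rw [← hf j]
      symm
      apply Finset.sum_subset_zero_on_sdiff (Finset.subset_univ (S l))
      · intro i hi
        have hi' : i ∉ S l := (Finset.mem_sdiff.1 hi).2
        simp only [if_neg hi', zero_smul]
      · intro i hi
        simp only [if_pos hi]
    · exact ⟨fun _ _ => 0, fun h => absurd h hl⟩
  choose a ha using hc
  have huniq : ∀ l ∈ L, ∀ f g : Fin n → ℚ, (∀ i, i ∉ S l → f i = 0) →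
      (∀ i, i ∉ S l → g i = 0) → ∑ i, f i • v i = ∑ i, g i • v i → f = g := by
    intro l hl f g hf hg h
    have h0 : ∑ i ∈ S l, (f i - g i) • v i = 0 := by
      rw [Finset.sum_subset (Finset.subset_univ (S l))]
      · simp only [sub_smul, Finset.sum_sub_distrib]
        rw [h, sub_self]
      · intro i _ hi
        rw [hf i hi, hg i hi, sub_zero, zero_smul]
    funext i
    by_cases hi : i ∈ S l
    · have := (hS l hl).1 (fun i => f i - g i) h0 i hi
      exact sub_eq_zero.1 this
    · rw [hf i hi, hg i hi]
  obtain ⟨c, hcdef⟩ : ∃ c : ℕ → ℕ → ℕ → ℚ, ∀ (b : ℕ) (l : List ℕ), L[b]? = some l →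
      ∀ (j k : ℕ) (hj : j < n) (hk : k < n), c b j k = a l ⟨j, hj⟩ ⟨k, hk⟩ := by
    refine ⟨fun b j k => if h : j < n ∧ k < n then a ((L[b]?).getD []) ⟨j, h.1⟩ ⟨k, h.2⟩ else 0,
      ?_⟩
    intro b l hb j k hj hk
    simp only [dif_pos (And.intro hj hk), hb, Option.getD_some]
  have hmem : ∀ (b : ℕ) (l : List ℕ), L[b]? = some l → l ∈ L := fun b l h =>
    List.mem_of_getElem? h
  refine ⟨?_, c, ?_, ?_, ?_, ?_⟩
  · -- some basis exists
    rintro rfl
    obtain ⟨B, hBB⟩ := exists_bas v
    obtain ⟨l, hl, _⟩ := (hB' B).2 hBB
    simp at hl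
  · -- zero
    intro b l hb j hj k hk hkl
    rw [hcdef b l hb j k (hfl j hj) (hfl k hk)]
    exact (ha l (hmem b l hb)).1 _ _ (fun h => hkl ((memS l _).1 h))
  · -- one
    intro b l hb j hj k hk
    have hl := hmem b l hb
    have hjn := hlt l hl j hj
    have hkn := hlt l hl k hk
    rw [hcdef b l hb j k hjn hkn]
    have h := huniq l hl (a l ⟨j, hjn⟩) (fun i => if (⟨j, hjn⟩ : Fin n) = i then 1 else 0)
      ((ha l hl).1 _) (fun i hi => by
        apply if_neg
        rintro rfl
        exact hi ((memS l _).2 hj)) (by
        rw [(ha l hl).2]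
        simp)
    rw [h]
    simp only [Fin.mk.injEq]
  · -- tr
    intro b l hb b' l' hb' j hj p hp
    have hl := hmem b l hb
    have hl' := hmem b' l' hb'
    have hjn := hfl j hj
    have hpn := hfl p hp
    rw [hcdef b' l' hb' j p hjn hpn]
    have h := huniq l' hl' (fun i' => ∑ i, a l ⟨j, hjn⟩ i * a l' i i') (a l' ⟨j, hjn⟩)
      (fun i' hi' => Finset.sum_eq_zero (fun i _ => by rw [(ha l' hl').1 i i' hi', mul_zero]))
      ((ha l' hl').1 _) (by
        rw [(ha l' hl').2]
        simp only [Finset.sum_smul, mul_smul]
        rw [Finset.sum_comm]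
        simp only [← Finset.smul_sum, (ha l' hl').2]
        exact (ha l hl).2 _)
    rw [← h]
    rw [← List.sum_toFinset _ (hnd l hl)]
    have e1 : l.toFinset = (S l).map Fin.valEmbedding := by
      ext x
      simp only [List.mem_toFinset, Finset.mem_map, memS, Fin.valEmbedding_apply]
      constructor
      · intro hx
        exact ⟨⟨x, hlt l hl x hx⟩, hx, rfl⟩
      · rintro ⟨i, hi, rfl⟩
        exact hi
    rw [e1, Finset.sum_map]
    apply Finset.sum_subset_zero_on_sdiff (Finset.subset_univ (S l))
    · intro i hi
      have hi' : i ∉ S l := (Finset.mem_sdiff.1 hi).2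
      rw [(ha l hl).1 _ i hi', zero_mul]
    · intro i _
      simp only [Fin.valEmbedding_apply]
      rw [hcdef b l hb j i hjn i.2, hcdef b' l' hb' i p i.2 hpn]
  · -- ex
    intro b l hb j hj hjl k hkl
    have hl := hmem b l hb
    have hjn := hfl j hj
    have hkn := hlt l hl k hkl
    rw [hcdef b l hb j k hjn hkn, exch_iff]
    set jj : Fin n := ⟨j, hjn⟩ with hjj
    set kk : Fin n := ⟨k, hkn⟩ with hkk
    have hjS : jj ∉ S l := fun h => hjl ((memS l _).1 h)
    have hkS : kk ∈ S l := (memS l _).2 hkl
    have hjk : jj ≠ kk := fun h => hjS (h ▸ hkS)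
    have haj := (ha l hl).2 jj
    constructor
    · intro hne
      have hbas : Bas v (insert jj ((S l).erase kk)) := by
        have hnot : jj ∉ (S l).erase kk := fun h => hjS (Finset.mem_of_mem_erase h)
        constructor
        · intro f hf
          rw [Finset.sum_insert hnot] at hf
          have h := huniq l hl (fun i => f jj * a l jj i + (if i ∈ (S l).erase kk then f i else 0))
            (fun _ => 0) (fun i hi => by
              rw [(ha l hl).1 jj i hi, if_neg (fun h => hi (Finset.mem_of_mem_erase h))]; simp)
            (fun i _ => rfl) (by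
              simp only [add_smul, Finset.sum_add_distrib, mul_smul, ← Finset.smul_sum, haj,
                zero_smul, Finset.sum_const_zero]
              rw [← hf]
              congr 1
              symm
              apply Finset.sum_subset_zero_on_sdiff (Finset.subset_univ _)
              · intro i hi
                rw [if_neg (Finset.mem_sdiff.1 hi).2, zero_smul]
              · intro i hi
                rw [if_pos hi])
          have hk0 := congrFun h kk
          simp only [Finset.mem_erase, ne_eq, not_true_eq_false, false_and, if_false,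
            add_zero] at hk0
          have hfj : f jj = 0 := by
            rcases mul_eq_zero.1 hk0 with h | h
            · exact h
            · exact absurd h hne
          intro i hi
          rcases Finset.mem_insert.1 hi with rfl | hi
          · exact hfj
          · have := congrFun h i
            simp only [hfj, zero_mul, zero_add, if_pos hi] at this
            exact this
        · intro j'
          set t : ℚ := a l j' kk / a l jj kk with ht
          refine ⟨fun i => if i = jj then t else a l j' i - t * a l jj i, ?_⟩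
          rw [Finset.sum_insert hnot]
          simp only [if_true]
          have e2 : ∑ i ∈ (S l).erase kk, (if i = jj then t else a l j' i - t * a l jj i) • v i =
              ∑ i, (a l j' i - t * a l jj i) • v i := by
            apply Finset.sum_subset_zero_on_sdiff (Finset.subset_univ _)
            · intro i hi
              have hi' : i ∉ (S l).erase kk := (Finset.mem_sdiff.1 hi).2
              by_cases hik : i = kk
              · rw [hik, ht, div_mul_cancel₀ _ hne, sub_self, zero_smul]
              · have : i ∉ S l := fun h => hi' (Finset.mem_erase.2 ⟨hik, h⟩)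
                rw [(ha l hl).1 j' i this, (ha l hl).1 jj i this, mul_zero, sub_zero, zero_smul]
            · intro i hi
              rw [if_neg]
              rintro rfl
              exact hnot hi
          rw [e2]
          simp only [sub_smul, Finset.sum_sub_distrib, mul_smul, ← Finset.smul_sum, haj,
            (ha l hl).2 j']
          abel
      obtain ⟨l', hl', hi'⟩ := (hB' _).2 hbas
      refine ⟨l', hl', (hi' jj).1 (Finset.mem_insert_self _ _), ?_, ?_⟩
      · intro x hx
        have hxn := hlt l' hl' x hx
        have := (hi' ⟨x, hxn⟩).2 hx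
        rcases Finset.mem_insert.1 this with h | h
        · left
          have := congrArg Fin.val h
          simpa [hjj] using this
        · right
          obtain ⟨h1, h2⟩ := Finset.mem_erase.1 h
          refine ⟨(memS l _).1 h2, ?_⟩
          rintro rfl
          exact h1 rfl
      · intro x hx
        by_cases hxk : x = k
        · exact Or.inl hxk
        · right
          have hxn := hlt l hl x hx
          refine (hi' ⟨x, hxn⟩).1 (Finset.mem_insert_of_mem (Finset.mem_erase.2 ⟨?_, ?_⟩))
          · intro h
            exact hxk (by simpa [hkk] using congrArg Fin.val h)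
          · exact (memS l _).2 hx
    · rintro ⟨l', hl', hjl', h1, h2⟩ h0
      -- linear dependence in l'
      have hjS' : jj ∈ S l' := (memS l' _).2 hjl'
      have h := huniq l' hl' (a l jj) (fun i => if i = jj then 1 else 0) (fun i hi => by
          by_cases hiS : i ∈ S l
          · rcases h2 i ((memS l i).1 hiS) with h | h
            · have : i = kk := Fin.ext h
              rw [this, h0]
            · exact absurd ((memS l' i).2 h) hi
          · exact (ha l hl).1 jj i hiS)
        (fun i hi => if_neg (by rintro rfl; exact hi hjS'))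
        (by rw [haj]; simp)
      have := congrFun h jj
      rw [(ha l hl).1 jj jj hjS] at this
      simp at this

end Pool.Agent.W419.LG
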